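import Pool.Agent.TH676.Z.MacCon
import Pool.Agent.TH676.Z.MacDel
import Pool.Agent.Y358.IN.Base

/-!
# Region intersection graphs: representations and their minors

A representation of `G - S` by connected sets `R u` of vertices of a graph `J` (vertices `W`, edges
`A ⊆ F`, ends `s`, `t`) which satisfies MacLane's condition with defect `h`.
-/

set_option autoImplicit false
set_option linter.unusedSectionVars false

namespace Pool.Agent.Q165.SG

open Finset Pool.Agent.TH676.Z Pool.Agent.Y335.FL

section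

variable {V E W F : Type} [Fintype V] [DecidableEq V] [Fintype E] [DecidableEq E]
  [Fintype W] [DecidableEq W] [Fintype F] [DecidableEq F]

/-- `X` is connected by the edges in `A` -/
def Cn (s t : F → W) (A : Finset F) (X : Finset W) : Prop :=
  ∀ Y ⊆ X, Y.Nonempty → (∀ f ∈ A, s f ∈ X → t f ∈ X → (s f ∈ Y ↔ t f ∈ Y)) → Y = X

/-- a representation of the graph without the vertices in `S` -/
structure Rep (src dst : E → V) (S : Finset V) (h : ℕ) (s t : F → W) (A : Finset F)
    (R : V → Finset W) : Prop where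
  mac : Mac h s t A
  emp : ∀ u ∈ S, R u = ∅
  cn : ∀ u, Cn s t A (R u)
  adj : ∀ u v, u ∉ S → v ∉ S → u ≠ v → (Adj src dst u v ↔ ∃ p, p ∈ R u ∧ p ∈ R v)

/-- the class of the graphs which are represented after the deletion of at most `k` vertices -/
def ClS (k h : ℕ) (W F : Type) [Fintype W] [DecidableEq W] [Fintype F] [DecidableEq F]
    (src dst : E → V) : Prop :=
  ∃ S : Finset V, S.card ≤ k ∧ ∃ (s t : F → W) (A : Finset F) (R : V → Finset W),
    Rep src dst S h s t A R

theorem ctr_u (u v : V) (h : u ≠ v) : ctr u v u = u := by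
  unfold ctr
  rw [if_neg h]

theorem ctr_v (u v : V) : ctr u v v = u := by
  unfold ctr
  rw [if_pos rfl]

theorem ctr_of_ne {u v x : V} (h : x ≠ v) : ctr u v x = x := by
  unfold ctr
  rw [if_neg h]

theorem ctr_ne_v {u v : V} (h : u ≠ v) (x : V) : ctr u v x ≠ v := by
  unfold ctr
  split_ifs with h1
  · exact h
  · exact h1

theorem adj_symm {src dst : E → V} {a b : V} (h : Adj src dst a b) : Adj src dst b a := by
  obtain ⟨h1, e, h2⟩ := h
  exact ⟨h1.symm, e, h2.symm⟩

theorem adj_ctr_iff {src dst : E → V} {u v a b : V} (hab : a ≠ b) :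
    Adj (ctr u v ∘ src) (ctr u v ∘ dst) a b ↔
      ∃ a' b', ctr u v a' = a ∧ ctr u v b' = b ∧ Adj src dst a' b' := by
  constructor
  · rintro ⟨_, e, he⟩
    rcases he with ⟨h1, h2⟩ | ⟨h1, h2⟩
    · refine ⟨src e, dst e, h1, h2, ?_, e, Or.inl ⟨rfl, rfl⟩⟩
      intro h
      apply hab
      rw [← h1, ← h2]
      exact congrArg _ h
    · refine ⟨dst e, src e, h2, h1, ?_, e, Or.inr ⟨rfl, rfl⟩⟩
      intro h
      apply hab
      rw [← h1, ← h2]
      exact congrArg _ h
  · rintro ⟨a', b', h1, h2, _, e, he⟩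
    refine ⟨hab, e, ?_⟩
    rcases he with ⟨h3, h4⟩ | ⟨h3, h4⟩
    · exact Or.inl ⟨by simp [h3, h1], by simp [h4, h2]⟩
    · exact Or.inr ⟨by simp [h3, h2], by simp [h4, h1]⟩

theorem Cn.empty (s t : F → W) (A : Finset F) : Cn s t A ∅ := by
  intro Y hY hn
  obtain ⟨y, hy⟩ := hn
  exact absurd (hY hy) (notMem_empty _)

/-- the part of a closed set in a connected set -/
theorem Cn.inter {s t : F → W} {A : Finset F} {X Z Y : Finset W} (hX : Cn s t A X)
    (hXZ : X ⊆ Z) (hY : ∀ f ∈ A, s f ∈ Z → t f ∈ Z → (s f ∈ Y ↔ t f ∈ Y)) :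
    (∀ p ∈ X, p ∉ Y) ∨ X ⊆ Y := by
  by_cases hn : (X.filter (· ∈ Y)).Nonempty
  · right
    have h1 := hX (X.filter (· ∈ Y)) (filter_subset _ _) hn (by
      intro f hf h2 h3
      rw [mem_filter, mem_filter]
      have := hY f hf (hXZ h2) (hXZ h3)
      tauto)
    intro p hp
    rw [← h1] at hp
    exact (mem_filter.1 hp).2
  · left
    intro p hp hpY
    exact hn ⟨p, mem_filter.2 ⟨hp, hpY⟩⟩

theorem Cn.union {s t : F → W} {A : Finset F} {X Z : Finset W} (hX : Cn s t A X)
    (hZ : Cn s t A Z) {p : W} (hp : p ∈ X) (hq : p ∈ Z) : Cn s t A (X ∪ Z) := by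
  intro Y hY hn hc
  have h1 := hX.inter subset_union_left hc
  have h2 := hZ.inter subset_union_right hc
  refine Finset.Subset.antisymm hY ?_
  by_cases hpY : p ∈ Y
  · have h3 : X ⊆ Y := h1.resolve_left (fun h => h p hp hpY)
    have h4 : Z ⊆ Y := h2.resolve_left (fun h => h p hq hpY)
    exact union_subset h3 h4
  · exfalso
    have h3 := h1.resolve_right (fun h => hpY (h hp))
    have h4 := h2.resolve_right (fun h => hpY (h hq))
    obtain ⟨y, hy⟩ := hn
    rcases mem_union.1 (hY hy) with h | h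
    · exact h3 y h hy
    · exact h4 y h hy

/-- the class is closed under contractions -/
theorem ccS (k h : ℕ) (W F : Type) [Fintype W] [DecidableEq W] [Fintype F] [DecidableEq F] :
    Pool.Agent.Y358.IN.CC (V := V) (E := E) (ClS k h W F) := by
  intro src dst e ⟨S, hS, s, t, A, R, hR⟩ hne
  set u := src e with hu
  set v := dst e with hv
  have huv : Adj src dst u v := ⟨hne, e, Or.inl ⟨rfl, rfl⟩⟩
  set S' := S.image (ctr u v) with hS'
  set R' : V → Finset W := fun x => if x ∈ S' then ∅ else if x = v then ∅ else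
    if x = u then R u ∪ R v else R x with hR'
  have hmem : ∀ x, x ∉ S' → ctr u v x = x → x ∉ S := by
    intro x hx hcx hxS
    exact hx (mem_image.2 ⟨x, hxS, hcx⟩)
  have huS : u ∉ S' → u ∉ S ∧ v ∉ S := by
    intro h
    refine ⟨hmem u h (ctr_u _ _ hne), fun h2 => h (mem_image.2 ⟨v, h2, ctr_v _ _⟩)⟩
  refine ⟨S', card_image_le.trans hS, s, t, A, R', hR.mac, ?_, ?_, ?_⟩
  · intro x hx
    rw [hR']
    simp only [if_pos hx]
  · intro x
    rw [hR']
    beta_reduce
    split_ifs with h1 h2 h3
    · exact Cn.empty _ _ _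
    · exact Cn.empty _ _ _
    · obtain ⟨h4, h5⟩ := huS (h3 ▸ h1)
      obtain ⟨p, hp, hq⟩ := (hR.adj u v h4 h5 hne).1 huv
      exact (hR.cn u).union (hR.cn v) hp hq
    · exact hR.cn x
  · have hadj : ∀ a b, a ∉ S' → b ∉ S' → a ≠ b → a ≠ v → b ≠ v → b ≠ u →
        (Adj (ctr u v ∘ src) (ctr u v ∘ dst) a b ↔ ∃ p, p ∈ R' a ∧ p ∈ R' b) := by
      intro a b ha hb hab hav hbv hbu
      have hbS : b ∉ S := hmem b hb (ctr_of_ne hbv)
      have hRb : R' b = R b := by
        rw [hR']
        simp only [if_neg hb, if_neg hbv, if_neg hbu]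
      rw [adj_ctr_iff hab, hRb]
      by_cases hau : a = u
      · obtain ⟨h4, h5⟩ := huS (hau ▸ ha)
        have hRa : R' a = R u ∪ R v := by
          rw [hR']
          simp only [if_neg ha, if_neg hav, if_pos hau]
        rw [hRa]
        constructor
        · rintro ⟨a', b', h6, h7, h8⟩
          have hb' : b' = b := by
            unfold ctr at h7
            split_ifs at h7 with h9
            · exact absurd h7.symm hbu
            · exact h7
          rw [hb'] at h8
          have ha' : a' = u ∨ a' = v := by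
            unfold ctr at h6
            split_ifs at h6 with h9
            · exact Or.inr h9
            · exact Or.inl (h6.trans hau)
          rcases ha' with rfl | rfl
          · obtain ⟨p, hp, hq⟩ := (hR.adj _ _ h4 hbS h8.1).1 h8
            exact ⟨p, mem_union_left _ hp, hq⟩
          · obtain ⟨p, hp, hq⟩ := (hR.adj _ _ h5 hbS h8.1).1 h8
            exact ⟨p, mem_union_right _ hp, hq⟩
        · rintro ⟨p, hp, hq⟩
          rcases mem_union.1 hp with hp | hp
          · have hub : u ≠ b := fun h => hbu h.symm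
            exact ⟨u, b, by rw [ctr_u _ _ hne, hau], ctr_of_ne hbv,
              (hR.adj _ _ h4 hbS hub).2 ⟨p, hp, hq⟩⟩
          · have hub : v ≠ b := fun h => hbv h.symm
            exact ⟨v, b, by rw [ctr_v, hau], ctr_of_ne hbv,
              (hR.adj _ _ h5 hbS hub).2 ⟨p, hp, hq⟩⟩
      · have haS : a ∉ S := hmem a ha (ctr_of_ne hav)
        have hRa : R' a = R a := by
          rw [hR']
          simp only [if_neg ha, if_neg hav, if_neg hau]
        rw [hRa]
        constructor
        · rintro ⟨a', b', h6, h7, h8⟩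
          have hb' : b' = b := by
            unfold ctr at h7
            split_ifs at h7 with h9
            · exact absurd h7.symm hbu
            · exact h7
          have ha' : a' = a := by
            unfold ctr at h6
            split_ifs at h6 with h9
            · exact absurd h6.symm hau
            · exact h6
          rw [hb', ha'] at h8
          exact (hR.adj a b haS hbS hab).1 h8
        · intro h
          exact ⟨a, b, ctr_of_ne hav, ctr_of_ne hbv, (hR.adj a b haS hbS hab).2 h⟩
    have hv0 : R' v = ∅ := by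
      rw [hR']
      beta_reduce
      split_ifs
      · rfl
      · rfl
    have hvadj : ∀ b, ¬ Adj (ctr u v ∘ src) (ctr u v ∘ dst) v b := by
      rintro b ⟨_, e', he'⟩
      rcases he' with ⟨h1, _⟩ | ⟨_, h1⟩
      · exact ctr_ne_v hne _ h1
      · exact ctr_ne_v hne _ h1
    intro a b ha hb hab
    by_cases hav : a = v
    · rw [hav, hv0]
      constructor
      · intro h
        exact absurd h (hvadj b)
      · rintro ⟨p, hp, _⟩
        exact absurd hp (notMem_empty _)
    by_cases hbv : b = v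
    · rw [hbv, hv0]
      constructor
      · intro h
        exact absurd (adj_symm h) (hvadj a)
      · rintro ⟨p, _, hp⟩
        exact absurd hp (notMem_empty _)
    by_cases hbu : b = u
    · have hau : a ≠ u := fun h => hab (h.trans hbu.symm)
      constructor
      · intro h
        obtain ⟨p, hp, hq⟩ := (hadj b a hb ha hab.symm hbv hav hau).1 (adj_symm h)
        exact ⟨p, hq, hp⟩
      · rintro ⟨p, hp, hq⟩
        exact adj_symm ((hadj b a hb ha hab.symm hbv hav hau).2 ⟨p, hq, hp⟩)
    · exact hadj a b ha hb hab hav hbv hbu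

/-- deletion of an edge of the graph of the regions -/
theorem Rep.del {src dst : E → V} {S : Finset V} {h : ℕ} {s t : F → W} {A : Finset F}
    {R : V → Finset W} (hR : Rep src dst S h s t A R) (f : F)
    (hf : ∀ u, s f ∈ R u → t f ∈ R u → ∀ Y ⊆ R u,
      (∀ g ∈ A, g ≠ f → s g ∈ R u → t g ∈ R u → (s g ∈ Y ↔ t g ∈ Y)) → (s f ∈ Y ↔ t f ∈ Y)) :
    Rep src dst S h s t (A.erase f) R := by
  refine ⟨macDel W F s t A h f hR.mac, hR.emp, ?_, hR.adj⟩
  intro u Y hY hn hc
  refine hR.cn u Y hY hn ?_
  intro g hg h1 h2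
  by_cases hgf : g = f
  · subst hgf
    exact hf u h1 h2 Y hY (fun g' hg' hne => hc g' (mem_erase.2 ⟨hne, hg'⟩))
  · exact hc g (mem_erase.2 ⟨hgf, hg⟩) h1 h2

/-- contraction of an edge of the graph of the regions -/
theorem Rep.con {src dst : E → V} {S : Finset V} {h : ℕ} {s t : F → W} {A : Finset F}
    {R : V → Finset W} (hR : Rep src dst S h s t A R) {f : F} (hfA : f ∈ A) (hne : s f ≠ t f)
    (hpar : ∀ g ∈ A, g ≠ f → ¬ Jn s t g (s f) (t f))
    (hin : (∀ u, s f ∈ R u → t f ∈ R u) ∨ (∀ u, t f ∈ R u → s f ∈ R u)) :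
    Rep src dst S h (ctr (s f) (t f) ∘ s) (ctr (s f) (t f) ∘ t) (A.erase f)
      (fun u => (R u).image (ctr (s f) (t f))) := by
  have hcf : ctr (s f) (t f) (s f) = ctr (s f) (t f) (t f) := by
    rw [ctr_v, ctr_u _ _ hne]
  refine ⟨macCon W F s t A h f hR.mac hfA hne hpar, ?_, ?_, ?_⟩
  · intro u hu
    simp only [hR.emp u hu, image_empty]
  · intro u Y hY hn hc
    have h1 := hR.cn u ((R u).filter (fun p => ctr (s f) (t f) p ∈ Y)) (filter_subset _ _) (by
      obtain ⟨y, hy⟩ := hn
      obtain ⟨p, hp, hpy⟩ := mem_image.1 (hY hy)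
      exact ⟨p, mem_filter.2 ⟨hp, hpy ▸ hy⟩⟩) (by
      intro g hg h2 h3
      rw [mem_filter, mem_filter]
      by_cases hgf : g = f
      · rw [hgf] at h2 h3 ⊢
        rw [hcf]
        tauto
      · have := hc g (mem_erase.2 ⟨hgf, hg⟩) (mem_image.2 ⟨_, h2, rfl⟩) (mem_image.2 ⟨_, h3, rfl⟩)
        simp only [Function.comp] at this
        tauto)
    refine Finset.Subset.antisymm hY ?_
    intro y hy
    obtain ⟨p, hp, rfl⟩ := mem_image.1 hy
    rw [← h1] at hp
    exact (mem_filter.1 hp).2
  · intro u v hu hv huv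
    rw [hR.adj u v hu hv huv]
    constructor
    · rintro ⟨p, hp, hq⟩
      exact ⟨ctr (s f) (t f) p, mem_image.2 ⟨p, hp, rfl⟩, mem_image.2 ⟨p, hq, rfl⟩⟩
    · rintro ⟨p, hp, hq⟩
      obtain ⟨a, ha, rfl⟩ := mem_image.1 hp
      obtain ⟨b, hb, hba⟩ := mem_image.1 hq
      by_cases hab : a = b
      · exact ⟨a, ha, hab ▸ hb⟩
      · have hab' : (a = s f ∧ b = t f) ∨ (a = t f ∧ b = s f) := by
          unfold ctr at hba
          split_ifs at hba with h1 h2 h2
          · exact absurd (h2.trans h1.symm) hab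
          · exact Or.inl ⟨hba.symm, h1⟩
          · exact Or.inr ⟨h2, hba⟩
          · exact absurd hba.symm hab
        rcases hab' with ⟨rfl, rfl⟩ | ⟨rfl, rfl⟩ <;> rcases hin with h1 | h1
        · exact ⟨t f, h1 u ha, hb⟩
        · exact ⟨s f, ha, h1 v hb⟩
        · exact ⟨t f, ha, h1 v hb⟩
        · exact ⟨s f, h1 u ha, hb⟩

end

end Pool.Agent.Q165.SG
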