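import Pool.Agent.TH676.Z.FacesG

/-!
# Counting faces of two kinds
-/

set_option autoImplicit false
set_option linter.unusedSectionVars false

namespace Pool.Agent.Q165.SG

open Finset Pool.Agent.TH676.Z

section

variable {E F : Type} [Fintype E] [DecidableEq E] [Fintype F] [DecidableEq F]

/-- the codimension does not grow under a linear map -/
theorem fr_map (φ : (F → ZMod 2) →ₗ[ZMod 2] (E → ZMod 2)) {W Z : Submodule (ZMod 2) (F → ZMod 2)}
    (hWZ : W ≤ Z) {h : ℕ} (hh : Module.finrank (ZMod 2) Z ≤ Module.finrank (ZMod 2) W + h) :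
    Module.finrank (ZMod 2) (Submodule.map φ Z) ≤
      Module.finrank (ZMod 2) (Submodule.map φ W) + h := by
  obtain ⟨C', hC'⟩ := Submodule.exists_isCompl (W.comap Z.subtype)
  have h1 := Submodule.finrank_add_eq_of_isCompl hC'
  have h2 : Module.finrank (ZMod 2) (W.comap Z.subtype) = Module.finrank (ZMod 2) W :=
    (Submodule.comapSubtypeEquivOfLe hWZ).finrank_eq
  set C : Submodule (ZMod 2) (F → ZMod 2) := C'.map Z.subtype with hC
  have h3 : Module.finrank (ZMod 2) C ≤ h := by
    have : Module.finrank (ZMod 2) C ≤ Module.finrank (ZMod 2) C' := Submodule.finrank_map_le _ _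
    omega
  have h4 : Z ≤ W ⊔ C := by
    intro x hx
    have h5 : (⟨x, hx⟩ : Z) ∈ (W.comap Z.subtype) ⊔ C' := by
      rw [hC'.sup_eq_top]
      exact Submodule.mem_top
    obtain ⟨y, hy, z, hz, hyz⟩ := Submodule.mem_sup.1 h5
    have h6 : x = (y : F → ZMod 2) + (z : F → ZMod 2) := by
      have := congrArg Subtype.val hyz
      exact this.symm
    rw [h6]
    exact Submodule.add_mem_sup hy (Submodule.mem_map_of_mem hz)
  calc Module.finrank (ZMod 2) (Submodule.map φ Z)
      ≤ Module.finrank (ZMod 2) (Submodule.map φ (W ⊔ C) : Submodule (ZMod 2) (E → ZMod 2)) :=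
        Submodule.finrank_mono (Submodule.map_mono h4)
    _ = Module.finrank (ZMod 2)
          (Submodule.map φ W ⊔ Submodule.map φ C : Submodule (ZMod 2) (E → ZMod 2)) := by
        rw [Submodule.map_sup]
    _ ≤ Module.finrank (ZMod 2) (Submodule.map φ W) +
          Module.finrank (ZMod 2) (Submodule.map φ C) :=
        Submodule.finrank_add_le_finrank_add_finrank _ _
    _ ≤ Module.finrank (ZMod 2) (Submodule.map φ W) + h :=
        Nat.add_le_add_left ((Submodule.finrank_map_le _ _).trans h3) _

/-- if every edge is in at most two members of a family of even subgraphs, all nonzero even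
subgraphs have at least four edges and those with nonzero image have at least twelve -/
theorem faces2 {k : ℕ} (K : Fin k → F → ZMod 2) (Z : Submodule (ZMod 2) (F → ZMod 2))
    (A : Finset F) (hK : ∀ i, K i ∈ Z) (hZA : ∀ x ∈ Z, ∀ f, f ∉ A → x f = 0)
    (h2 : ∀ f, (univ.filter (fun i => K i f ≠ 0)).card ≤ 2)
    (φ : (F → ZMod 2) →ₗ[ZMod 2] (E → ZMod 2))
    (h4 : ∀ x ∈ Z, x ≠ 0 → 4 ≤ (univ.filter (fun f => x f ≠ 0)).card)
    (h12 : ∀ x ∈ Z, φ x ≠ 0 → 12 ≤ (univ.filter (fun f => x f ≠ 0)).card)
    (hr : 1 ≤ Module.finrank (ZMod 2)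
      (Submodule.map φ (Submodule.span (ZMod 2) (Set.range K)))) :
    4 * (Module.finrank (ZMod 2) (Submodule.span (ZMod 2) (Set.range K)) + 1) +
      8 * (Module.finrank (ZMod 2)
        (Submodule.map φ (Submodule.span (ZMod 2) (Set.range K))) + 1) ≤ 2 * A.card := by
  classical
  obtain ⟨κ, a, ha, hspan, hli⟩ := exists_linearIndependent' (ZMod 2) K
  haveI : Finite κ := Finite.of_injective a ha
  haveI := Fintype.ofFinite κ
  have hcard : Module.finrank (ZMod 2) (Submodule.span (ZMod 2) (Set.range K)) =
      Fintype.card κ := by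
    rw [← hspan]
    exact finrank_span_eq_card hli
  set N : Finset κ := univ.filter (fun j => φ (K (a j)) ≠ 0) with hN
  set b : {j // j ∈ N} → (E → ZMod 2) := fun j => φ (K (a j)) with hb
  have hmap : Submodule.map φ (Submodule.span (ZMod 2) (Set.range K)) =
      Submodule.span (ZMod 2) (Set.range b) := by
    rw [← hspan, Submodule.map_span, ← Set.range_comp]
    apply le_antisymm
    · rw [Submodule.span_le]
      rintro _ ⟨j, rfl⟩
      by_cases hj : φ (K (a j)) = 0
      · have : (φ ∘ K ∘ a) j = 0 := hj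
        rw [this]
        exact Submodule.zero_mem _
      · exact Submodule.subset_span ⟨⟨j, mem_filter.2 ⟨mem_univ _, hj⟩⟩, rfl⟩
    · rw [Submodule.span_le]
      rintro _ ⟨j, rfl⟩
      exact Submodule.subset_span ⟨j.1, rfl⟩
  have hle : Module.finrank (ZMod 2) (Submodule.span (ZMod 2) (Set.range b)) ≤ N.card := by
    have := finrank_range_le_card (R := ZMod 2) b
    rwa [Fintype.card_coe] at this
  set S : F → ZMod 2 := ∑ j, K (a j) with hS
  have hSe : ∀ e, S e = ∑ j, K (a j) e := fun e => by rw [hS, Finset.sum_apply]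
  have hSZ : S ∈ Z := Submodule.sum_mem _ fun j _ => hK (a j)
  rw [hmap] at hr ⊢
  have hNpos : 0 < N.card := by omega
  obtain ⟨j0, hj0⟩ := card_pos.1 hNpos
  have hS0 : S ≠ 0 := by
    intro h0
    have h1 := Fintype.linearIndependent_iff.mp hli (fun _ => 1) (by
      simpa [Function.comp] using h0)
    exact one_ne_zero (h1 j0)
  -- the image of the sum
  have hkey : Module.finrank (ZMod 2) (Submodule.span (ZMod 2) (Set.range b)) + 1 ≤
      N.card + (if φ S ≠ 0 then 1 else 0) := by
    rcases Nat.lt_or_ge (Module.finrank (ZMod 2) (Submodule.span (ZMod 2) (Set.range b)))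
      N.card with h1 | h1
    · split_ifs <;> omega
    · have h3 : LinearIndependent (ZMod 2) b := by
        rw [linearIndependent_iff_card_eq_finrank_span]
        unfold Set.finrank
        rw [Fintype.card_coe]
        omega
      have h5 : φ S ≠ 0 := by
        intro h0
        have h6 : ∑ j : {j // j ∈ N}, b j = 0 := by
          rw [← h0, hS, map_sum, hb]
          rw [Finset.sum_coe_sort N (fun j => φ (K (a j)))]
          rw [hN]
          refine sum_subset (subset_univ _) fun j _ hj => ?_
          by_contra h7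
          exact hj (mem_filter.2 ⟨mem_univ _, h7⟩)
        have h7 := Fintype.linearIndependent_iff.mp h3 (fun _ => 1) (by simpa using h6)
        exact one_ne_zero (h7 ⟨j0, hj0⟩)
      rw [if_pos h5]
      omega
  have hlow : ∀ x ∈ Z, x ≠ 0 → 4 + (if φ x ≠ 0 then 8 else 0) ≤
      (univ.filter (fun f => x f ≠ 0)).card := by
    intro x hx hx0
    split_ifs with h1
    · exact h12 x hx h1
    · exact h4 x hx hx0
  have hsum1 : 4 * Fintype.card κ + 8 * N.card ≤
      ∑ j : κ, (univ.filter (fun e => K (a j) e ≠ 0)).card := by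
    have h1 : ∑ j : κ, (4 + (if φ (K (a j)) ≠ 0 then 8 else 0)) ≤
        ∑ j : κ, (univ.filter (fun e => K (a j) e ≠ 0)).card :=
      sum_le_sum fun j _ => hlow _ (hK (a j)) (hli.ne_zero j)
    rw [sum_add_distrib, ← sum_filter, sum_const, sum_const, smul_eq_mul, smul_eq_mul,
      card_univ] at h1
    rw [← hN] at h1
    omega
  have hsumS := hlow S hSZ hS0
  have hswap : ∑ j : κ, (univ.filter (fun e => K (a j) e ≠ 0)).card =
      ∑ e : F, (univ.filter (fun j : κ => K (a j) e ≠ 0)).card := by
    simp only [Finset.card_filter]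
    exact Finset.sum_comm
  have hup : ∀ e : F, (univ.filter (fun j : κ => K (a j) e ≠ 0)).card +
      (if S e ≠ 0 then 1 else 0) ≤ if e ∈ A then 2 else 0 := by
    intro e
    by_cases he : e ∈ A
    · rw [if_pos he]
      have hc : (univ.filter (fun j : κ => K (a j) e ≠ 0)).card ≤ 2 := by
        refine le_trans ?_ (h2 e)
        refine Finset.card_le_card_of_injOn a ?_ ha.injOn
        intro j hj
        simpa using hj
      have := FacesGx.key (fun j => K (a j) e) hc
      rw [← hSe e] at this
      exact this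
    · rw [if_neg he]
      have h0 : ∀ i, K i e = 0 := fun i => hZA _ (hK i) e he
      have hSe0 : S e = 0 := hZA _ hSZ e he
      simp [h0, hSe0]
  have htot : ∑ e : F, ((univ.filter (fun j : κ => K (a j) e ≠ 0)).card +
      (if S e ≠ 0 then 1 else 0)) ≤ ∑ e : F, (if e ∈ A then 2 else 0) :=
    Finset.sum_le_sum fun e _ => hup e
  rw [Finset.sum_add_distrib, ← hswap] at htot
  have hSc : ∑ e : F, (if S e ≠ 0 then 1 else 0) = (univ.filter (fun e => S e ≠ 0)).card := by
    rw [Finset.card_filter]
  have hFc : ∑ e : F, (if e ∈ A then 2 else 0) = 2 * A.card := by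
    rw [← Finset.sum_filter]
    simp [Finset.filter_mem_eq_inter, mul_comm]
  rw [hSc, hFc] at htot
  rw [hcard]
  split_ifs at hkey hsumS with h1 <;> omega

end

end Pool.Agent.Q165.SG
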