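import Pool.Agent.Q165.SG.Phi
import Pool.Agent.TH676.Z.Stm4

/-!
# Lifting even subgraphs of the intersection graph, and counting points and edges
-/

set_option autoImplicit false
set_option linter.unusedSectionVars false

namespace Pool.Agent.Q165.SG

open Finset Pool.Agent.TH676.Z Pool.Agent.Y335.FL

section

variable {V E W F : Type} [Fintype V] [DecidableEq V] [Fintype E] [DecidableEq E]
  [Fintype W] [DecidableEq W] [Fintype F] [DecidableEq F]

theorem bdL_apply (s t : F → W) (y : F → ZMod 2) (p : W) :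
    Dimx.bdL s t y p = bd2 s t y p := rfl

/-- prescribed odd vertices in a connected set -/
theorem tjoin {s t : F → W} {A : Finset F} {X : Finset W} (hC : Cn s t A X) (T : W → ZMod 2)
    (hT : ∀ p, p ∉ X → T p = 0) (hs : ∑ p, T p = 0) :
    ∃ y : F → ZMod 2, (∀ f, ¬ (f ∈ A ∧ s f ∈ X ∧ t f ∈ X) → y f = 0) ∧
      ∀ p, bd2 s t y p = T p := by
  classical
  rcases X.eq_empty_or_nonempty with hX | ⟨x0, hx0⟩
  · refine ⟨0, fun _ _ => rfl, fun p => ?_⟩
    rw [hT p (by rw [hX]; exact notMem_empty p)]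
    unfold bd2
    simp
  have hall : ∀ q ∈ X, ∃ y : F → ZMod 2, (∀ f, ¬ (f ∈ A ∧ s f ∈ X ∧ t f ∈ X) → y f = 0) ∧
      ∀ p, bd2 s t y p = (if p = x0 then 1 else 0) + (if p = q then 1 else 0) := by
    have h1 := hC (X.filter (fun q => ∃ y : F → ZMod 2,
      (∀ f, ¬ (f ∈ A ∧ s f ∈ X ∧ t f ∈ X) → y f = 0) ∧
      ∀ p, bd2 s t y p = (if p = x0 then 1 else 0) + (if p = q then 1 else 0)))
      (filter_subset _ _) ⟨x0, mem_filter.2 ⟨hx0, 0, fun _ _ => rfl, fun p => by
        have h2 : ∀ a : ZMod 2, a + a = 0 := by decide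
        rw [h2]
        unfold bd2
        simp⟩⟩ (by
      intro f hf h2 h3
      have key : ∀ q q' : W, q ∈ X → q' ∈ X → Jn s t f q q' →
          (∃ y : F → ZMod 2, (∀ f, ¬ (f ∈ A ∧ s f ∈ X ∧ t f ∈ X) → y f = 0) ∧
            ∀ p, bd2 s t y p = (if p = x0 then 1 else 0) + (if p = q then 1 else 0)) →
          ∃ y : F → ZMod 2, (∀ f, ¬ (f ∈ A ∧ s f ∈ X ∧ t f ∈ X) → y f = 0) ∧
            ∀ p, bd2 s t y p = (if p = x0 then 1 else 0) + (if p = q' then 1 else 0) := by
        rintro q q' _ _ hj ⟨y, hy1, hy2⟩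
        refine ⟨y + Pi.single f 1, fun g hg => ?_, fun p => ?_⟩
        · have hgf : g ≠ f := by
            rintro rfl
            exact hg ⟨hf, h2, h3⟩
          rw [Pi.add_apply, hy1 g hg, Pi.single_eq_of_ne hgf, add_zero]
        · rw [MacConx.bd2_add, hy2, MacConx.bd2_single]
          have h4 : (if s f = p then (1 : ZMod 2) else 0) + (if t f = p then 1 else 0) =
              (if p = q then 1 else 0) + (if p = q' then 1 else 0) := by
            rcases hj with ⟨e1, e2⟩ | ⟨e1, e2⟩
            · rw [e1, e2]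
              simp only [eq_comm]
            · rw [e1, e2, add_comm]
              simp only [eq_comm]
          rw [h4]
          have h5 : ∀ a b c : ZMod 2, a + b + (b + c) = a + c := by decide
          exact h5 _ _ _
      rw [mem_filter, mem_filter]
      constructor
      · rintro ⟨_, h4⟩
        exact ⟨h3, key _ _ h2 h3 (Or.inl ⟨rfl, rfl⟩) h4⟩
      · rintro ⟨_, h4⟩
        exact ⟨h2, key _ _ h3 h2 (Or.inr ⟨rfl, rfl⟩) h4⟩)
    intro q hq
    rw [← h1] at hq
    exact (mem_filter.1 hq).2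
  choose! y hy1 hy2 using hall
  refine ⟨∑ q ∈ X, T q • y q, fun f hf => ?_, fun p => ?_⟩
  · rw [Finset.sum_apply]
    refine sum_eq_zero fun q hq => ?_
    rw [Pi.smul_apply, hy1 q hq f hf, smul_zero]
  · rw [← bdL_apply, map_sum, Finset.sum_apply]
    have h1 : ∀ q ∈ X, Dimx.bdL s t (T q • y q) p =
        T q * (if p = x0 then 1 else 0) + T q * (if p = q then 1 else 0) := by
      intro q hq
      rw [map_smul, Pi.smul_apply, bdL_apply, hy2 q hq, smul_eq_mul, mul_add]
    rw [sum_congr rfl h1, sum_add_distrib, ← sum_mul]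
    have h2 : ∑ q ∈ X, T q = 0 := by
      rw [← hs]
      exact sum_subset (subset_univ _) fun q _ hq => hT q hq
    rw [h2, zero_mul, zero_add]
    by_cases hp : p ∈ X
    · rw [sum_eq_single p]
      · rw [if_pos rfl, mul_one]
      · intro q _ hq
        rw [if_neg (fun h => hq h.symm), mul_zero]
      · intro h
        exact absurd hp h
    · rw [hT p hp]
      refine sum_eq_zero fun q hq => ?_
      rw [if_neg (show ¬ p = q from fun h => hp (h ▸ hq)), mul_zero]

/-- a connected set with `n` points has at least `n - 1` edges -/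
theorem card_cn {s t : F → W} {A : Finset F} {X : Finset W} (hC : Cn s t A X) :
    X.card ≤ (A.filter (fun f => s f ∈ X ∧ t f ∈ X)).card + 1 := by
  classical
  rcases X.eq_empty_or_nonempty with hX | ⟨x0, hx0⟩
  · rw [hX, card_empty]
    exact Nat.zero_le _
  have key : ∀ n, n + 1 ≤ X.card → ∃ Y ⊆ X, Y.card = n + 1 ∧
      Y.card ≤ (A.filter (fun f => s f ∈ Y ∧ t f ∈ Y)).card + 1 := by
    intro n
    induction n with
    | zero =>
      intro _
      refine ⟨{x0}, singleton_subset_iff.2 hx0, card_singleton _, ?_⟩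
      rw [card_singleton]
      omega
    | succ n ih =>
      intro hn
      obtain ⟨Y, hYX, hYc, hYe⟩ := ih (by omega)
      have hne : Y ≠ X := by
        rintro rfl
        omega
      have h1 : ∃ f ∈ A, s f ∈ X ∧ t f ∈ X ∧ ¬ (s f ∈ Y ↔ t f ∈ Y) := by
        by_contra hcon
        push Not at hcon
        apply hne
        refine hC Y hYX (card_pos.1 (by omega)) ?_
        intro f hf h2 h3
        have := hcon f hf h2 h3
        tauto
      obtain ⟨f, hfA, h2, h3, h4⟩ := h1
      obtain ⟨z, hzX, hzY, hz⟩ : ∃ z ∈ X, z ∉ Y ∧ (s f ∈ insert z Y ∧ t f ∈ insert z Y) := by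
        by_cases h5 : s f ∈ Y
        · refine ⟨t f, h3, fun h => h4 (by tauto), ?_, mem_insert_self _ _⟩
          exact mem_insert_of_mem h5
        · refine ⟨s f, h2, h5, mem_insert_self _ _, ?_⟩
          exact mem_insert_of_mem (by tauto)
      refine ⟨insert z Y, insert_subset hzX hYX, by rw [card_insert_of_notMem hzY, hYc], ?_⟩
      rw [card_insert_of_notMem hzY]
      have hsub : insert f (A.filter (fun f => s f ∈ Y ∧ t f ∈ Y)) ⊆
          A.filter (fun f => s f ∈ insert z Y ∧ t f ∈ insert z Y) := by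
        intro g hg
        rcases mem_insert.1 hg with rfl | hg
        · exact mem_filter.2 ⟨hfA, hz⟩
        · rw [mem_filter] at hg ⊢
          exact ⟨hg.1, mem_insert_of_mem hg.2.1, mem_insert_of_mem hg.2.2⟩
      have hnot : f ∉ A.filter (fun f => s f ∈ Y ∧ t f ∈ Y) := by
        rw [mem_filter]
        rintro ⟨_, h5, h6⟩
        exact h4 ⟨fun _ => h6, fun _ => h5⟩
      have := card_le_card hsub
      rw [card_insert_of_notMem hnot] at this
      omega
  have hpos : 0 < X.card := card_pos.2 ⟨x0, hx0⟩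
  obtain ⟨Y, hYX, hYc, hYe⟩ := key (X.card - 1) (by omega)
  have hYX' : Y = X := eq_of_subset_of_card_le hYX (by omega)
  rwa [hYX'] at hYe

variable {src dst : E → V} {S : Finset V} {h : ℕ} {s t : F → W} {A : Finset F}
  {R : V → Finset W}

/-- every even subgraph of the intersection graph comes from the graph of the regions -/
theorem Red.phi_surj (hr : Red src dst S h s t A R) (hnp : NoPar src dst) {z : E → ZMod 2}
    (hz : z ∈ ZF src dst (ES src dst S)) : ∃ b ∈ ZF s t A, phi src dst S s t A R b = z := by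
  classical
  by_cases hES : ES src dst S = ∅
  · refine ⟨0, Submodule.zero_mem _, ?_⟩
    rw [map_zero]
    funext e
    rw [hz.1 e (by rw [hES]; exact notMem_empty _)]
    rfl
  have hW : Nonempty W := by
    obtain ⟨e, he⟩ := nonempty_iff_ne_empty.2 hES
    obtain ⟨h1, h2, h3⟩ := mem_ES'.1 he
    obtain ⟨p, _⟩ := (hr.rep.adj _ _ h2 h3 h1).1 ⟨h1, e, Or.inl ⟨rfl, rfl⟩⟩
    exact ⟨p⟩
  have hex : ∀ e ∈ ES src dst S, ∃ p, p ∈ R (src e) ∧ p ∈ R (dst e) := by
    intro e he
    obtain ⟨h1, h2, h3⟩ := mem_ES'.1 he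
    exact (hr.rep.adj _ _ h2 h3 h1).1 ⟨h1, e, Or.inl ⟨rfl, rfl⟩⟩
  choose! pt hpt using hex
  set T : V → W → ZMod 2 := fun x p => ∑ e, (if e ∈ ES src dst S ∧ pt e = p then
    ((if src e = x then z e else 0) + (if dst e = x then z e else 0)) else 0) with hT
  have hT0 : ∀ x p, p ∉ R x → T x p = 0 := by
    intro x p hp
    refine sum_eq_zero fun e _ => ?_
    by_cases h1 : e ∈ ES src dst S ∧ pt e = p
    · rw [if_pos h1]
      have h2 : src e ≠ x := by
        rintro rfl
        exact hp (h1.2 ▸ (hpt e h1.1).1)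
      have h3 : dst e ≠ x := by
        rintro rfl
        exact hp (h1.2 ▸ (hpt e h1.1).2)
      rw [if_neg h2, if_neg h3, add_zero]
    · rw [if_neg h1]
  have hTs : ∀ x, ∑ p, T x p = 0 := by
    intro x
    rw [← hz.2 x]
    unfold bd2
    rw [hT]
    beta_reduce
    rw [sum_comm]
    refine sum_congr rfl fun e _ => ?_
    by_cases he : e ∈ ES src dst S
    · rw [sum_eq_single (pt e)]
      · rw [if_pos ⟨he, rfl⟩]
      · intro p _ hp
        rw [if_neg (fun h => hp h.2.symm)]
      · intro h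
        exact absurd (mem_univ _) h
    · rw [hz.1 e he]
      simp
  have hj : ∀ x, ∃ y : F → ZMod 2, (∀ f, ¬ (f ∈ A ∧ s f ∈ R x ∧ t f ∈ R x) → y f = 0) ∧
      ∀ p, bd2 s t y p = T x p := fun x => tjoin (hr.rep.cn x) (T x) (hT0 x) (hTs x)
  choose y hy1 hy2 using hj
  have hrs : ∀ u, rs s t A R u (∑ x, y x) = y u := by
    intro u
    funext f
    rw [rs_apply, Finset.sum_apply]
    by_cases h1 : f ∈ A ∧ s f ∈ R u ∧ t f ∈ R u
    · rw [if_pos h1, sum_eq_single u]
      · intro x _ hx
        refine hy1 x f ?_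
        rintro ⟨_, h2, h3⟩
        exact hx (hr.uniq h1.1 h2 h3 h1.2.1 h1.2.2)
      · intro h
        exact absurd (mem_univ _) h
    · rw [if_neg h1, hy1 u f h1]
  refine ⟨∑ x, y x, ⟨fun f hf => ?_, fun p => ?_⟩, ?_⟩
  · rw [Finset.sum_apply]
    refine sum_eq_zero fun x _ => hy1 x f (fun h => hf h.1)
  · rw [← bdL_apply, map_sum, Finset.sum_apply]
    simp only [bdL_apply, hy2]
    rw [hT]
    beta_reduce
    rw [sum_comm]
    refine sum_eq_zero fun e _ => ?_
    by_cases h1 : e ∈ ES src dst S ∧ pt e = p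
    · simp only [if_pos h1]
      rw [sum_add_distrib, Finset.sum_ite_eq, Finset.sum_ite_eq, if_pos (mem_univ _),
        if_pos (mem_univ _)]
      exact CharTwo.add_self_eq_zero _
    · simp only [if_neg h1]
      exact sum_const_zero
  · funext e
    rw [phi_apply]
    by_cases he : e ∈ ES src dst S
    · rw [if_pos he, hrs (src e)]
      have hne := (mem_ES'.1 he).1
      have h1 : ∀ p ∈ R (src e) ∩ R (dst e), bd2 s t (y (src e)) p =
          if pt e = p then z e else 0 := by
        intro p hp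
        rw [mem_inter] at hp
        rw [hy2, hT]
        beta_reduce
        rw [sum_eq_single e]
        · by_cases h2 : pt e = p
          · rw [if_pos ⟨he, h2⟩, if_pos rfl, if_neg (fun h => hne h.symm), add_zero, if_pos h2]
          · rw [if_neg (fun h => h2 h.2), if_neg h2]
        · intro e' _ hne'
          refine if_neg ?_
          rintro ⟨h2, rfl⟩
          exact hne' (hr.edge_eq hnp (mem_ES'.1 h2).1 hne (hpt e' h2).1 (hpt e' h2).2 hp.1 hp.2)
        · intro h
          exact absurd (mem_univ _) h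
      rw [sum_congr rfl h1, Finset.sum_ite_eq, if_pos (mem_inter.2 (hpt e he))]
    · rw [if_neg he, hz.1 e he]

open Classical in
/-- the points on edges -/
noncomputable def Pts (s t : F → W) (A : Finset F) : Finset W :=
  univ.filter (fun p => ∃ f ∈ A, s f = p ∨ t f = p)

theorem mem_Pts {p : W} : p ∈ Pts s t A ↔ ∃ f ∈ A, s f = p ∨ t f = p := by
  unfold Pts
  rw [mem_filter]
  simp

/-- counting the points -/
theorem Red.count (hr : Red src dst S h s t A R) :
    2 * (Pts s t A).card ≤ A.card + (VS src dst S).card := by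
  classical
  have h1 : ∀ p ∈ Pts s t A, 2 ≤ (univ.filter (fun u => p ∈ R u)).card := by
    intro p hp
    obtain ⟨f, hfA, hfp⟩ := mem_Pts.1 hp
    obtain ⟨a, ha1, ha2⟩ := hr.col hfA
    have hpa : p ∈ R a := by
      rcases hfp with rfl | rfl
      · exact ha1
      · exact ha2
    obtain ⟨v, hv, hpv⟩ := hr.second hfA (x := a) hfp
    have h2 : ({a, v} : Finset V) ⊆ univ.filter (fun u => p ∈ R u) := by
      intro u hu
      rw [mem_filter]
      rcases mem_insert.1 hu with rfl | hu
      · exact ⟨mem_univ _, hpa⟩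
      · rw [mem_singleton.1 hu]
        exact ⟨mem_univ _, hpv⟩
    have := card_le_card h2
    rwa [card_pair hv.symm] at this
  set U : Finset V := univ.filter (fun u => ∃ p ∈ Pts s t A, p ∈ R u) with hU
  have h2 : (Pts s t A).card * 2 ≤ ∑ p ∈ Pts s t A, (univ.filter (fun u => p ∈ R u)).card := by
    have := card_nsmul_le_sum (Pts s t A) (fun p => (univ.filter (fun u => p ∈ R u)).card) 2 h1
    simpa using this
  have h3 : ∑ p ∈ Pts s t A, (univ.filter (fun u => p ∈ R u)).card =
      ∑ u, ((Pts s t A).filter (fun p => p ∈ R u)).card := by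
    simp only [card_filter]
    exact sum_comm
  have h4 : ∑ u, ((Pts s t A).filter (fun p => p ∈ R u)).card =
      ∑ u ∈ U, ((Pts s t A).filter (fun p => p ∈ R u)).card := by
    symm
    refine sum_subset (subset_univ _) fun u _ hu => ?_
    rw [card_eq_zero, eq_empty_iff_forall_notMem]
    intro p hp
    rw [mem_filter] at hp
    exact hu (mem_filter.2 ⟨mem_univ _, p, hp.1, hp.2⟩)
  have h5 : ∀ u ∈ U, ((Pts s t A).filter (fun p => p ∈ R u)).card ≤
      (A.filter (fun f => s f ∈ R u ∧ t f ∈ R u)).card + 1 := by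
    intro u _
    refine le_trans (card_le_card ?_) (card_cn (hr.rep.cn u))
    intro p hp
    exact (mem_filter.1 hp).2
  have h6 : ∑ u ∈ U, ((A.filter (fun f => s f ∈ R u ∧ t f ∈ R u)).card + 1) ≤
      A.card + U.card := by
    rw [sum_add_distrib, sum_const, smul_eq_mul, mul_one]
    refine Nat.add_le_add_right ?_ _
    simp only [card_filter]
    rw [sum_comm]
    have h7 : ∀ f ∈ A, ∑ u ∈ U, (if s f ∈ R u ∧ t f ∈ R u then 1 else 0) ≤ 1 := by
      intro f hf
      rw [← card_filter, card_le_one]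
      intro a ha b hb
      rw [mem_filter] at ha hb
      exact hr.uniq hf ha.2.1 ha.2.2 hb.2.1 hb.2.2
    calc ∑ f ∈ A, ∑ u ∈ U, (if s f ∈ R u ∧ t f ∈ R u then 1 else 0) ≤ ∑ _f ∈ A, 1 :=
          sum_le_sum h7
      _ = A.card := by simp
  have h8 : U.card ≤ (VS src dst S).card := by
    refine card_le_card ?_
    intro u hu
    obtain ⟨_, p, hp, hpu⟩ := mem_filter.1 hu
    obtain ⟨f, hfA, hfp⟩ := mem_Pts.1 hp
    obtain ⟨v, hv, hpv⟩ := hr.second hfA (x := u) hfp
    unfold VS
    rw [mem_filter]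
    exact ⟨mem_univ _, hr.notS hpu, v, hr.adj' hpu hpv hv.symm⟩
  have h9 := sum_le_sum h5
  omega

end

end Pool.Agent.Q165.SG
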