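import Pool.Agent.Q165.SG.Lift
import Pool.Agent.Q165.SG.Faces2
import Pool.Agent.Y335.FL.Main

/-!
# Nowhere-zero 5-flows in region intersection graphs over surfaces, with apex vertices
-/

set_option autoImplicit false
set_option linter.unusedSectionVars false

namespace Pool.Agent.Q165.SG

open Finset Pool.Agent.TH676.Z Pool.Agent.Y335.FL Pool.Agent.Y358.IN

/-- the numerical contradiction -/
theorem num {m n t zH zJ r r1 a p k h : ℕ} (h1 : m + 1 ≤ zH + n) (h2 : 3 * n ≤ 2 * m + t)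
    (h3 : 63 * t ≤ k * (m + t)) (h6 : 189 ≤ m + t) (hz : zH ≤ r1 + h) (hzJ : zJ ≤ r + h)
    (hc : 2 * p ≤ a + n)
    (h4 : 1 ≤ r1 → a + 1 ≤ zJ + p ∧ 4 * (r + 1) + 8 * (r1 + 1) ≤ 2 * a)
    (hk : 7 * k + 6 * h ≤ 137) (hk' : k ≤ 18) : False := by
  rcases Nat.eq_zero_or_pos r1 with hr | hr
  · clear h4
    interval_cases k <;> omega
  · obtain ⟨h5, h7⟩ := h4 hr
    clear h4
    interval_cases k <;> omega

section

variable {V E W F : Type} [Fintype V] [DecidableEq V] [Fintype E] [DecidableEq E]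
  [Fintype W] [DecidableEq W] [Fintype F] [DecidableEq F]
  {src dst : E → V} {S : Finset V} {h : ℕ} {s t : F → W} {A : Finset F} {R : V → Finset W}

/-- nonzero even subgraphs of the graph of the regions have at least four edges -/
theorem Red.four (hr : Red src dst S h s t A R) {b : F → ZMod 2} (hb : b ∈ ZF s t A)
    (h0 : b ≠ 0) : 4 ≤ (univ.filter (fun f => b f ≠ 0)).card := by
  classical
  set t' : F → W := fun f => if f ∈ A then t f else s f with ht'
  have h1 : ZF s t' A = ZF s t A :=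
    ApMCx.zf_congr s t s t' A (fun f hf => ⟨rfl, by simp only [ht', if_pos hf]⟩)
  have hA : ∀ f x y, x ≠ y → Jn s t' f x y → f ∈ A ∧ Jn s t f x y := by
    intro f x y hxy hj
    have hf : f ∈ A := by
      by_contra hn
      have h2 : t' f = s f := by simp only [ht', if_neg hn]
      rcases hj with ⟨e1, e2⟩ | ⟨e1, e2⟩
      · exact hxy (e1.symm.trans (h2.symm.trans e2))
      · exact hxy (e2.symm.trans (h2.trans e1))
    have h2 : t' f = t f := by simp only [ht', if_pos hf]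
    unfold Jn at hj ⊢
    rw [h2] at hj
    exact ⟨hf, hj⟩
  refine even_all W F s t' A 4 ?_ ?_ ?_ b (h1 ▸ hb) h0
  · intro k hk v hv hAd
    obtain rfl : k = 0 := by omega
    obtain ⟨n01, f1, j1⟩ := hAd 0
    obtain ⟨n12, f2, j2⟩ := hAd 1
    obtain ⟨n20, f3, j3⟩ := hAd 2
    have e3 : (2 : Fin (0 + 3)) + 1 = 0 := rfl
    rw [e3] at n20 j3
    obtain ⟨a1, b1⟩ := hA f1 _ _ n01 j1
    obtain ⟨a2, b2⟩ := hA f2 _ _ n12 j2
    obtain ⟨a3, b3⟩ := hA f3 _ _ n20 j3
    exact hr.notri n01 n12 n20 a1 a2 a3 b1 b2 b3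
  · intro f g x y hxy hf hg
    obtain ⟨a1, b1⟩ := hA f x y hxy hf
    obtain ⟨a2, b2⟩ := hA g x y hxy hg
    by_contra hne
    refine hr.nopar a1 a2 (fun h => hne h.symm) ?_
    rcases b1 with ⟨e1, e2⟩ | ⟨e1, e2⟩ <;> rcases b2 with ⟨e3, e4⟩ | ⟨e3, e4⟩
    · exact Or.inl ⟨e3.trans e1.symm, e4.trans e2.symm⟩
    · exact Or.inr ⟨e3.trans e2.symm, e4.trans e1.symm⟩
    · exact Or.inr ⟨e3.trans e2.symm, e4.trans e1.symm⟩
    · exact Or.inl ⟨e3.trans e1.symm, e4.trans e2.symm⟩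
  · intro f hf
    have h2 : t' f = t f := by simp only [ht', if_pos hf]
    rw [h2]
    exact hr.noloop hf

end

/-- **5-flows**: region intersection graphs over surfaces, with apex vertices -/
theorem flowS {V E : Type} [Fintype V] [DecidableEq V] [Fintype E] [DecidableEq E] {k h : ℕ}
    (hkh : 7 * k + 6 * h ≤ 137) (hk : k ≤ 18) (W F : Type) [Fintype W] [DecidableEq W] [Fintype F]
    [DecidableEq F] (src dst : E → V) (hC : ClS k h W F src dst) (hb : Br src dst ∅ ∅) :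
    FlowOn src dst ∅ ∅ := by
  classical
  by_contra hn
  obtain ⟨s0, d0, hCl, hM⟩ := exists_minC (ccS k h W F) src dst hC hb hn
  have hG := girthC contract_all hM
  have hT := threeC contract_all hM
  have hP : NoPar s0 d0 := fun e e' x y hxy h1 h2 => no_par contract_all hM hxy h1 h2
  by_cases hno : ∀ e, s0 e = d0 e
  · exact hM.nf (flow_of_loops hno)
  push Not at hno
  obtain ⟨e0, he0⟩ := hno
  obtain ⟨S, hS, s1, t1, A1, R1, hR⟩ := hCl
  have htri : ∀ a b c, Adj s0 d0 a b → Adj s0 d0 b c → Adj s0 d0 c a → False := by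
    intro a b c hab hbc hca
    refine hG 0 (by norm_num) ![a, b, c] ?_ ?_
    · intro i j hij
      have n1 := hab.1
      have n2 := hbc.1
      have n3 := hca.1
      fin_cases i <;> fin_cases j <;> simp_all
    · intro i
      fin_cases i
      · exact hab
      · exact hbc
      · exact hca
  obtain ⟨s, t, A, R, hr⟩ := exists_red hR htri
  obtain ⟨l, K, k1, k2, k3⟩ := hr.rep.mac
  obtain ⟨h63, h6, hne⟩ := Surfx.common edge62_all hG hT hP he0 S (by omega)
  have e1 := dim V E s0 d0 (ES s0 d0 S) (VS s0 d0 S) hne (Surfx.hends S)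
  have e2 := degS V E s0 d0 S hT
  have hmap : Submodule.map (phi s0 d0 S s t A R) (ZF s t A) = ZF s0 d0 (ES s0 d0 S) := by
    apply le_antisymm
    · rintro _ ⟨b, hb1, rfl⟩
      exact hr.phi_mem hP hb1
    · intro z hz
      obtain ⟨b, hb1, hb2⟩ := hr.phi_surj hP hz
      exact ⟨b, hb1, hb2⟩
  have hspan : Submodule.span (ZMod 2) (Set.range K) ≤ ZF s t A := by
    rw [Submodule.span_le]
    rintro _ ⟨i, rfl⟩
    exact k1 i
  have e3 := fr_map (phi s0 d0 S s t A R) hspan k3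
  rw [hmap] at e3
  have h12 : ∀ x ∈ ZF s t A, phi s0 d0 S s t A R x ≠ 0 →
      12 ≤ (univ.filter (fun f => x f ≠ 0)).card := by
    intro x hx hx0
    refine le_trans ?_ (hr.card_supp hP hx)
    refine even_all V E s0 d0 (ES s0 d0 S) 12 hG hP ?_ _ (hr.phi_mem hP hx) hx0
    intro e he
    exact (mem_ES'.1 he).1
  refine num e1 e2 (h63.trans (Nat.mul_le_mul_right _ hS)) h6 e3 k3 hr.count ?_ hkh hk
  intro hr1
  have h7 := faces2 K (ZF s t A) A k1 (fun x hx f hf => hx.1 f hf) k2 (phi s0 d0 S s t A R)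
    (fun x hx hx0 => hr.four hx hx0) h12 hr1
  refine ⟨?_, h7⟩
  refine dim W F s t A (Pts s t A) ?_ ?_
  · have hA : 0 < A.card := by omega
    obtain ⟨f, hf⟩ := card_pos.1 hA
    exact ⟨s f, mem_Pts.2 ⟨f, hf, Or.inl rfl⟩⟩
  · intro f hf
    exact ⟨mem_Pts.2 ⟨f, hf, Or.inl rfl⟩, mem_Pts.2 ⟨f, hf, Or.inr rfl⟩⟩

end Pool.Agent.Q165.SG
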