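import Pool.Agent.Q165.SG.Red
import Pool.Agent.TH676.Z.Dim

/-!
# From even subgraphs of the graph of the regions to even subgraphs of the intersection graph
-/

set_option autoImplicit false
set_option linter.unusedSectionVars false

namespace Pool.Agent.Q165.SG

open Finset Pool.Agent.TH676.Z Pool.Agent.Y335.FL

section

variable {V E W F : Type} [Fintype V] [DecidableEq V] [Fintype E] [DecidableEq E]
  [Fintype W] [DecidableEq W] [Fintype F] [DecidableEq F]

/-- the restriction to the edges inside of the region of `u` -/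
def rs (s t : F → W) (A : Finset F) (R : V → Finset W) (u : V) :
    (F → ZMod 2) →ₗ[ZMod 2] (F → ZMod 2) where
  toFun b f := if f ∈ A ∧ s f ∈ R u ∧ t f ∈ R u then b f else 0
  map_add' a b := by
    funext f
    simp only [Pi.add_apply]
    split_ifs
    · rfl
    · rw [add_zero]
  map_smul' c b := by
    funext f
    simp only [Pi.smul_apply, smul_eq_mul, RingHom.id_apply]
    split_ifs
    · rfl
    · rw [mul_zero]

theorem rs_apply (s t : F → W) (A : Finset F) (R : V → Finset W) (u : V) (b : F → ZMod 2)
    (f : F) : rs s t A R u b f = if f ∈ A ∧ s f ∈ R u ∧ t f ∈ R u then b f else 0 := rfl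

/-- the even subgraph of the intersection graph -/
noncomputable def phi (src dst : E → V) (S : Finset V) (s t : F → W) (A : Finset F)
    (R : V → Finset W) : (F → ZMod 2) →ₗ[ZMod 2] (E → ZMod 2) where
  toFun b e := if e ∈ ES src dst S then
    ∑ p ∈ R (src e) ∩ R (dst e), Dimx.bdL s t (rs s t A R (src e) b) p else 0
  map_add' a b := by
    funext e
    simp only [Pi.add_apply, map_add]
    split_ifs
    · rw [sum_add_distrib]
    · rw [add_zero]
  map_smul' c b := by
    funext e
    simp only [Pi.smul_apply, map_smul, smul_eq_mul, RingHom.id_apply]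
    split_ifs
    · rw [mul_sum]
    · rw [mul_zero]

theorem phi_apply (src dst : E → V) (S : Finset V) (s t : F → W) (A : Finset F)
    (R : V → Finset W) (b : F → ZMod 2) (e : E) : phi src dst S s t A R b e =
      if e ∈ ES src dst S then
        ∑ p ∈ R (src e) ∩ R (dst e), bd2 s t (rs s t A R (src e) b) p else 0 := rfl

variable {src dst : E → V} {S : Finset V} {h : ℕ} {s t : F → W} {A : Finset F}
  {R : V → Finset W}

theorem Red.pair (hr : Red src dst S h s t A R) {b : F → ZMod 2} (hb : b ∈ ZF s t A) {u v : V}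
    {p : W} (hu : p ∈ R u) (hv : p ∈ R v) (huv : u ≠ v) :
    bd2 s t (rs s t A R u b) p = bd2 s t (rs s t A R v b) p := by
  have h1 : bd2 s t (rs s t A R u b) p + bd2 s t (rs s t A R v b) p = 0 := by
    rw [← MacConx.bd2_add, ← hb.2 p]
    unfold bd2
    refine sum_congr rfl fun f _ => ?_
    rw [Pi.add_apply, rs_apply, rs_apply]
    by_cases hf : f ∈ A
    · congr 1
      · by_cases hp : s f = p
        · rw [if_pos hp, if_pos hp]
          rcases hr.src_col hf (hp ▸ hu) (hp ▸ hv) huv with h1 | h1
          · rw [if_pos ⟨hf, hp ▸ hu, h1.1⟩, if_neg (fun h => h1.2 h.2.2), add_zero]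
          · rw [if_neg (fun h => h1.1 h.2.2), if_pos ⟨hf, hp ▸ hv, h1.2⟩, zero_add]
        · rw [if_neg hp, if_neg hp]
      · by_cases hp : t f = p
        · rw [if_pos hp, if_pos hp]
          rcases hr.dst_col hf (hp ▸ hu) (hp ▸ hv) huv with h1 | h1
          · rw [if_pos ⟨hf, h1.1, hp ▸ hu⟩, if_neg (fun h => h1.2 h.2.1), add_zero]
          · rw [if_neg (fun h => h1.1 h.2.1), if_pos ⟨hf, h1.2, hp ▸ hv⟩, zero_add]
        · rw [if_neg hp, if_neg hp]
    · simp [hf, hb.1 f hf]
  have h2 : ∀ a b : ZMod 2, a + b = 0 → a = b := by decide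
  exact h2 _ _ h1

theorem rs_out {b : F → ZMod 2} {u : V} {p : W} (hp : bd2 s t (rs s t A R u b) p ≠ 0) :
    ∃ f ∈ A, (s f = p ∨ t f = p) ∧ s f ∈ R u ∧ t f ∈ R u ∧ b f ≠ 0 := by
  unfold bd2 at hp
  obtain ⟨f, _, hf⟩ := exists_ne_zero_of_sum_ne_zero hp
  rw [rs_apply] at hf
  by_cases h1 : f ∈ A ∧ s f ∈ R u ∧ t f ∈ R u
  · rw [if_pos h1] at hf
    refine ⟨f, h1.1, ?_, h1.2.1, h1.2.2, ?_⟩
    · by_contra hcon
      push Not at hcon
      rw [if_neg hcon.1, if_neg hcon.2, add_zero] at hf
      exact hf rfl
    · intro h0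
      rw [h0] at hf
      simp at hf
  · rw [if_neg h1] at hf
    simp at hf

theorem sum_zero (x : F → ZMod 2) : ∑ p, bd2 s t x p = 0 :=
  Dimx.sum_bd2 (F := univ) (N := univ) (fun _ _ => ⟨mem_univ _, mem_univ _⟩)
    (fun e he => absurd (mem_univ e) he)

theorem mem_ES' {e : E} : e ∈ ES src dst S ↔ src e ≠ dst e ∧ src e ∉ S ∧ dst e ∉ S := by
  unfold ES
  rw [mem_filter]
  simp

/-- the edge of the intersection graph which belongs to a point -/
theorem Red.edge_eq (hr : Red src dst S h s t A R) (hnp : NoPar src dst) {p : W} {e e' : E}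
    (he : src e ≠ dst e) (he' : src e' ≠ dst e') (h1 : p ∈ R (src e)) (h2 : p ∈ R (dst e))
    (h3 : p ∈ R (src e')) (h4 : p ∈ R (dst e')) : e = e' := by
  refine hnp e e' (src e) (dst e) he (Or.inl ⟨rfl, rfl⟩) ?_
  rcases hr.two h1 h2 h3 he with h5 | h5 <;> rcases hr.two h1 h2 h4 he with h6 | h6
  · exact absurd (h5.trans h6.symm) he'
  · exact Or.inl ⟨h5, h6⟩
  · exact Or.inr ⟨h5, h6⟩
  · exact absurd (h5.trans h6.symm) he'

theorem Red.phi_mem (hr : Red src dst S h s t A R) (hnp : NoPar src dst) {b : F → ZMod 2}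
    (hb : b ∈ ZF s t A) : phi src dst S s t A R b ∈ ZF src dst (ES src dst S) := by
  refine ⟨fun e he => by rw [phi_apply, if_neg he], fun x => ?_⟩
  set g : W → ZMod 2 := fun p => bd2 s t (rs s t A R x b) p with hg
  set c : E → W → ZMod 2 := fun e p =>
    if e ∈ ES src dst S ∧ (p ∈ R (src e) ∧ p ∈ R (dst e)) ∧ (src e = x ∨ dst e = x) then 1 else 0
    with hc
  have h1 : ∀ e, ((if src e = x then phi src dst S s t A R b e else 0) +
      (if dst e = x then phi src dst S s t A R b e else 0)) = ∑ p, c e p * g p := by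
    intro e
    by_cases he : e ∈ ES src dst S
    · have hne := (mem_ES'.1 he).1
      have hsum : ∑ p ∈ R (src e) ∩ R (dst e), g p =
          ∑ p, (if p ∈ R (src e) ∧ p ∈ R (dst e) then g p else 0) := by
        rw [← sum_filter]
        refine sum_congr ?_ fun _ _ => rfl
        ext p
        simp
      by_cases h2 : src e = x
      · have h3 : dst e ≠ x := fun h => hne (h2.trans h.symm)
        rw [if_pos h2, if_neg h3, add_zero, phi_apply, if_pos he, h2]
        rw [h2] at hsum
        change ∑ p ∈ R x ∩ R (dst e), g p = _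
        rw [hsum]
        refine sum_congr rfl fun p _ => ?_
        rw [hc]
        by_cases h4 : p ∈ R x ∧ p ∈ R (dst e)
        · simp only [if_pos h4]
          rw [if_pos ⟨he, h2 ▸ h4, Or.inl h2⟩, one_mul]
        · simp only [if_neg h4]
          rw [if_neg (fun h => h4 (h2 ▸ h.2.1)), zero_mul]
      · rw [if_neg h2, zero_add]
        by_cases h3 : dst e = x
        · rw [if_pos h3, phi_apply, if_pos he]
          have h5 : ∑ p ∈ R (src e) ∩ R (dst e), bd2 s t (rs s t A R (src e) b) p =
              ∑ p ∈ R (src e) ∩ R (dst e), g p := by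
            refine sum_congr rfl fun p hp => ?_
            rw [mem_inter] at hp
            rw [hg]
            beta_reduce
            rw [hr.pair hb hp.1 hp.2 hne, h3]
          rw [h5, hsum]
          refine sum_congr rfl fun p _ => ?_
          rw [hc]
          by_cases h4 : p ∈ R (src e) ∧ p ∈ R (dst e)
          · simp only [if_pos h4]
            rw [if_pos ⟨he, h4, Or.inr h3⟩, one_mul]
          · simp only [if_neg h4]
            rw [if_neg (fun h => h4 h.2.1), zero_mul]
        · rw [if_neg h3]
          symm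
          refine sum_eq_zero fun p _ => ?_
          rw [hc]
          beta_reduce
          rw [if_neg (fun h => h.2.2.elim h2 h3), zero_mul]
    · rw [phi_apply, if_neg he]
      simp only [ite_self, add_zero]
      symm
      refine sum_eq_zero fun p _ => ?_
      rw [hc]
      beta_reduce
      rw [if_neg (fun h => he h.1), zero_mul]
  unfold bd2
  rw [sum_congr rfl fun e _ => h1 e, sum_comm]
  have h2 : ∀ p, ∑ e, c e p * g p = g p := by
    intro p
    rw [← sum_mul]
    by_cases hgp : g p = 0
    · rw [hgp, mul_zero]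
    · obtain ⟨f, hfA, hfp, hsx, htx, _⟩ := rs_out hgp
      have hpx : p ∈ R x := by
        rcases hfp with rfl | rfl
        · exact hsx
        · exact htx
      obtain ⟨v, hvx, hpv⟩ := hr.second hfA (x := x) hfp
      have hadj := hr.adj' hpx hpv hvx.symm
      obtain ⟨_, e0, he0⟩ := hadj
      have hxS := hr.notS hpx
      have hvS := hr.notS hpv
      have hin : e0 ∈ ES src dst S ∧ (p ∈ R (src e0) ∧ p ∈ R (dst e0)) ∧
          (src e0 = x ∨ dst e0 = x) := by
        rcases he0 with ⟨a, b⟩ | ⟨a, b⟩
        · refine ⟨mem_ES'.2 ?_, ?_, Or.inl a⟩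
          · rw [a, b]
            exact ⟨hvx.symm, hxS, hvS⟩
          · rw [a, b]
            exact ⟨hpx, hpv⟩
        · refine ⟨mem_ES'.2 ?_, ?_, Or.inr b⟩
          · rw [a, b]
            exact ⟨hvx, hvS, hxS⟩
          · rw [a, b]
            exact ⟨hpv, hpx⟩
      have h3 : ∑ e, c e p = 1 := by
        rw [sum_eq_single e0]
        · rw [hc]
          exact if_pos hin
        · intro e _ hne
          rw [hc]
          refine if_neg ?_
          rintro ⟨h4, h5, _⟩
          exact hne (hr.edge_eq hnp (mem_ES'.1 h4).1 (mem_ES'.1 hin.1).1 h5.1 h5.2 hin.2.1.1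
            hin.2.1.2)
        · intro h4
          exact absurd (mem_univ _) h4
      rw [h3, one_mul]
  rw [sum_congr rfl fun p _ => h2 p]
  exact sum_zero _

/-- an even subgraph of the intersection graph with `m` edges needs `m` edges -/
theorem Red.card_supp (hr : Red src dst S h s t A R) (hnp : NoPar src dst) {b : F → ZMod 2}
    (hb : b ∈ ZF s t A) : (univ.filter (fun e => phi src dst S s t A R b e ≠ 0)).card ≤
      (univ.filter (fun f => b f ≠ 0)).card := by
  have h1 : ∀ e ∈ univ.filter (fun e => phi src dst S s t A R b e ≠ 0), ∃ p,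
      (p ∈ R (src e) ∧ p ∈ R (dst e)) ∧ src e ≠ dst e ∧
        ∃ f ∈ A, (s f = p ∨ t f = p) ∧ b f ≠ 0 := by
    intro e he
    rw [mem_filter, phi_apply] at he
    have h2 := he.2
    by_cases h3 : e ∈ ES src dst S
    · rw [if_pos h3] at h2
      obtain ⟨p, hp, hp0⟩ := exists_ne_zero_of_sum_ne_zero h2
      obtain ⟨f, hfA, hfp, _, _, hf0⟩ := rs_out hp0
      exact ⟨p, mem_inter.1 hp, (mem_ES'.1 h3).1, f, hfA, hfp, hf0⟩
    · rw [if_neg h3] at h2
      exact absurd rfl h2
  rcases isEmpty_or_nonempty W with hW | hW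
  · refine le_trans (le_of_eq ?_) (Nat.zero_le _)
    rw [card_eq_zero, eq_empty_iff_forall_notMem]
    intro e he
    obtain ⟨p, _⟩ := h1 e he
    exact hW.elim p
  choose! pt hpt hne hf using h1
  set X := univ.filter (fun e => phi src dst S s t A R b e ≠ 0) with hX
  set Y := univ.filter (fun f => b f ≠ 0) with hY
  have hinj : Set.InjOn pt (X : Set E) := by
    intro e he e' he' hee
    have h2 := hpt e he
    have h3 := hpt e' he'
    rw [← hee] at h3
    exact hr.edge_eq hnp (hne e he) (hne e' he') h2.1 h2.2 h3.1 h3.2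
  set T := X.image pt with hT
  have hTc : T.card = X.card := card_image_of_injOn hinj
  have hlow : ∀ p ∈ T, 2 ≤ (Y.filter (fun f => s f = p ∨ t f = p)).card := by
    intro p hp
    obtain ⟨e, he, rfl⟩ := mem_image.1 hp
    obtain ⟨f, hfA, hfp, hf0⟩ := hf e he
    have h2 : (((Y.filter (fun f => s f = pt e ∨ t f = pt e)).card : ℕ) : ZMod 2) = 0 := by
      rw [← hb.2 (pt e)]
      unfold bd2
      rw [card_filter, Nat.cast_sum, hY, sum_filter]
      refine sum_congr rfl fun f _ => ?_
      by_cases hfb : b f ≠ 0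
      · have hfA' : f ∈ A := by
          by_contra h4
          exact hfb (hb.1 f h4)
        have hlo := hr.noloop hfA'
        have h1 : b f = 1 := by
          revert hfb
          generalize b f = y
          revert y
          decide
        rw [if_pos hfb, h1]
        by_cases h5 : s f = pt e
        · have h6 : t f ≠ pt e := fun h => hlo (h5.trans h.symm)
          rw [if_pos (Or.inl h5), if_pos h5, if_neg h6]
          simp
        · by_cases h6 : t f = pt e
          · rw [if_pos (Or.inr h6), if_neg h5, if_pos h6]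
            simp
          · rw [if_neg (fun h => h.elim h5 h6), if_neg h5, if_neg h6]
            simp
      · push Not at hfb
        rw [if_neg (not_not.2 hfb), hfb]
        simp
    have h3 : 0 < (Y.filter (fun f => s f = pt e ∨ t f = pt e)).card :=
      card_pos.2 ⟨f, mem_filter.2 ⟨mem_filter.2 ⟨mem_univ _, hf0⟩, hfp⟩⟩
    by_contra hcon
    have h4 : (Y.filter (fun f => s f = pt e ∨ t f = pt e)).card = 1 := by omega
    rw [h4] at h2
    revert h2
    decide
  have hsum : ∑ p ∈ T, (Y.filter (fun f => s f = p ∨ t f = p)).card ≤ 2 * Y.card := by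
    simp only [card_filter]
    rw [sum_comm]
    have : ∀ f ∈ Y, ∑ p ∈ T, (if s f = p ∨ t f = p then 1 else 0) ≤ 2 := by
      intro f _
      rw [← card_filter]
      refine (card_le_card (t := {s f, t f}) ?_).trans card_le_two
      intro p hp
      rw [mem_filter] at hp
      rw [mem_insert, mem_singleton]
      rcases hp.2 with h | h
      · exact Or.inl h.symm
      · exact Or.inr h.symm
    calc ∑ f ∈ Y, ∑ p ∈ T, (if s f = p ∨ t f = p then 1 else 0) ≤ ∑ _f ∈ Y, 2 := sum_le_sum this
      _ = 2 * Y.card := by rw [sum_const, smul_eq_mul, mul_comm]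
  have hlow' : T.card * 2 ≤ ∑ p ∈ T, (Y.filter (fun f => s f = p ∨ t f = p)).card := by
    have := card_nsmul_le_sum T (fun p => (Y.filter (fun f => s f = p ∨ t f = p)).card) 2 hlow
    simpa using this
  omega

end

end Pool.Agent.Q165.SG
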