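import Pool.Agent.Q165.SG.Rep

/-!
# Minimal representations of graphs without triangles
-/

set_option autoImplicit false
set_option linter.unusedSectionVars false

namespace Pool.Agent.Q165.SG

open Finset Pool.Agent.TH676.Z Pool.Agent.Y335.FL

section

variable {V E W F : Type} [Fintype V] [DecidableEq V] [Fintype E] [DecidableEq E]
  [Fintype W] [DecidableEq W] [Fintype F] [DecidableEq F]

/-- a representation with the smallest number of edges -/
structure Red (src dst : E → V) (S : Finset V) (h : ℕ) (s t : F → W) (A : Finset F)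
    (R : V → Finset W) : Prop where
  rep : Rep src dst S h s t A R
  min : ∀ (s' t' : F → W) (A' : Finset F) (R' : V → Finset W), Rep src dst S h s' t' A' R' →
    A.card ≤ A'.card
  tri : ∀ a b c, Adj src dst a b → Adj src dst b c → Adj src dst c a → False

theorem exists_red {src dst : E → V} {S : Finset V} {h : ℕ} {s t : F → W} {A : Finset F}
    {R : V → Finset W} (hR : Rep src dst S h s t A R)
    (htri : ∀ a b c, Adj src dst a b → Adj src dst b c → Adj src dst c a → False) :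
    ∃ (s' t' : F → W) (A' : Finset F) (R' : V → Finset W), Red src dst S h s' t' A' R' := by
  classical
  have hex : ∃ m, ∃ (s' t' : F → W) (A' : Finset F) (R' : V → Finset W),
      Rep src dst S h s' t' A' R' ∧ A'.card = m := ⟨_, s, t, A, R, hR, rfl⟩
  obtain ⟨s', t', A', R', h1, h2⟩ := Nat.find_spec hex
  refine ⟨s', t', A', R', h1, fun s2 t2 A2 R2 h3 => ?_, htri⟩
  rw [h2]
  exact Nat.find_min' hex ⟨s2, t2, A2, R2, h3, rfl⟩

variable {src dst : E → V} {S : Finset V} {h : ℕ} {s t : F → W} {A : Finset F}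
  {R : V → Finset W}

/-- an edge cannot be deleted -/
theorem Red.nodel (hr : Red src dst S h s t A R) {f : F} (hfA : f ∈ A)
    (hf : ∀ u, s f ∈ R u → t f ∈ R u → ∀ Y ⊆ R u,
      (∀ g ∈ A, g ≠ f → s g ∈ R u → t g ∈ R u → (s g ∈ Y ↔ t g ∈ Y)) → (s f ∈ Y ↔ t f ∈ Y)) :
    False := by
  have h1 := hr.min s t (A.erase f) R (hr.rep.del f hf)
  rw [card_erase_of_mem hfA] at h1
  have h2 : 0 < A.card := card_pos.2 ⟨f, hfA⟩
  omega

theorem Red.noloop (hr : Red src dst S h s t A R) {f : F} (hfA : f ∈ A) : s f ≠ t f := by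
  intro h1
  refine hr.nodel hfA ?_
  intro u _ _ Y _ _
  rw [h1]

theorem Red.nopar (hr : Red src dst S h s t A R) {f g : F} (hfA : f ∈ A) (hgA : g ∈ A)
    (hne : g ≠ f) : ¬ Jn s t g (s f) (t f) := by
  intro hj
  refine hr.nodel hfA ?_
  intro u h1 h2 Y _ hc
  rcases hj with ⟨h3, h4⟩ | ⟨h3, h4⟩
  · have := hc g hgA hne (by rw [h3]; exact h1) (by rw [h4]; exact h2)
    rwa [h3, h4] at this
  · have := hc g hgA hne (by rw [h3]; exact h2) (by rw [h4]; exact h1)
    rw [h3, h4] at this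
    exact this.symm

/-- the regions are not empty only outside of `S` -/
theorem Red.notS (hr : Red src dst S h s t A R) {u : V} {p : W} (hp : p ∈ R u) : u ∉ S := by
  intro hu
  rw [hr.rep.emp u hu] at hp
  exact absurd hp (notMem_empty _)

theorem Red.adj' (hr : Red src dst S h s t A R) {u v : V} {p : W} (hp : p ∈ R u) (hq : p ∈ R v)
    (huv : u ≠ v) : Adj src dst u v :=
  (hr.rep.adj u v (hr.notS hp) (hr.notS hq) huv).2 ⟨p, hp, hq⟩

/-- a point is in at most two regions -/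
theorem Red.two (hr : Red src dst S h s t A R) {u v w : V} {p : W} (hu : p ∈ R u) (hv : p ∈ R v)
    (hw : p ∈ R w) (huv : u ≠ v) : w = u ∨ w = v := by
  by_contra hcon
  push Not at hcon
  exact hr.tri u v w (hr.adj' hu hv huv) (hr.adj' hv hw hcon.2.symm) (hr.adj' hw hu hcon.1)

/-- every edge is inside of a region -/
theorem Red.col (hr : Red src dst S h s t A R) {f : F} (hfA : f ∈ A) :
    ∃ u, s f ∈ R u ∧ t f ∈ R u := by
  by_contra hcon
  push Not at hcon
  refine hr.nodel hfA ?_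
  intro u h1 h2
  exact absurd h2 (hcon u h1)

/-- the regions at the ends of an edge -/
theorem Red.str (hr : Red src dst S h s t A R) {f : F} (hfA : f ∈ A) :
    ∃ u v w, s f ∈ R u ∧ t f ∈ R u ∧ s f ∈ R v ∧ t f ∉ R v ∧ t f ∈ R w ∧ s f ∉ R w := by
  obtain ⟨u, h1, h2⟩ := hr.col hfA
  have hne := hr.noloop hfA
  have key : ∀ hin : (∀ u, s f ∈ R u → t f ∈ R u) ∨ (∀ u, t f ∈ R u → s f ∈ R u), False := by
    intro hin
    have h3 := hr.rep.con hfA hne (fun g hg hgf => hr.nopar hfA hg hgf) hin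
    have h4 := hr.min _ _ _ _ h3
    rw [card_erase_of_mem hfA] at h4
    have h2 : 0 < A.card := card_pos.2 ⟨f, hfA⟩
    omega
  have h3 : ∃ v, s f ∈ R v ∧ t f ∉ R v := by
    by_contra hcon
    push Not at hcon
    exact key (Or.inl hcon)
  have h4 : ∃ w, t f ∈ R w ∧ s f ∉ R w := by
    by_contra hcon
    push Not at hcon
    exact key (Or.inr hcon)
  obtain ⟨v, hv1, hv2⟩ := h3
  obtain ⟨w, hw1, hw2⟩ := h4
  exact ⟨u, v, w, h1, h2, hv1, hv2, hw1, hw2⟩

/-- the region of an edge is unique -/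
theorem Red.uniq (hr : Red src dst S h s t A R) {f : F} (hfA : f ∈ A) {u v : V}
    (h1 : s f ∈ R u) (h2 : t f ∈ R u) (h3 : s f ∈ R v) (h4 : t f ∈ R v) : u = v := by
  obtain ⟨a, b, c, ha1, ha2, hb1, hb2, hc1, hc2⟩ := hr.str hfA
  have hab : a ≠ b := by
    rintro rfl
    exact hb2 ha2
  have hu := hr.two ha1 hb1 h1 hab
  have hv := hr.two ha1 hb1 h3 hab
  rcases hu with hu | hu
  · rcases hv with hv | hv
    · exact hu.trans hv.symm
    · exact absurd (hv ▸ h4) hb2
  · exact absurd (hu ▸ h2) hb2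

/-- if the end `p` of an edge of `A` is in the different regions `u` and `v` then the edge is in
exactly one of them -/
theorem Red.src_col (hr : Red src dst S h s t A R) {f : F} (hfA : f ∈ A) {u v : V}
    (hu : s f ∈ R u) (hv : s f ∈ R v) (huv : u ≠ v) :
    (t f ∈ R u ∧ t f ∉ R v) ∨ (t f ∉ R u ∧ t f ∈ R v) := by
  obtain ⟨a, ha1, ha2⟩ := hr.col hfA
  rcases hr.two hu hv ha1 huv with rfl | rfl
  · exact Or.inl ⟨ha2, fun h4 => huv (hr.uniq hfA ha1 ha2 hv h4)⟩
  · exact Or.inr ⟨fun h4 => huv (hr.uniq hfA hu h4 ha1 ha2), ha2⟩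

theorem Red.dst_col (hr : Red src dst S h s t A R) {f : F} (hfA : f ∈ A) {u v : V}
    (hu : t f ∈ R u) (hv : t f ∈ R v) (huv : u ≠ v) :
    (s f ∈ R u ∧ s f ∉ R v) ∨ (s f ∉ R u ∧ s f ∈ R v) := by
  obtain ⟨a, ha1, ha2⟩ := hr.col hfA
  rcases hr.two hu hv ha2 huv with rfl | rfl
  · exact Or.inl ⟨ha1, fun h4 => huv (hr.uniq hfA ha1 ha2 h4 hv)⟩
  · exact Or.inr ⟨fun h4 => huv (hr.uniq hfA h4 hu ha1 ha2), ha1⟩

/-- a second region at the ends of an edge -/
theorem Red.second (hr : Red src dst S h s t A R) {f : F} (hfA : f ∈ A) {x : V} {p : W}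
    (hp : s f = p ∨ t f = p) : ∃ v, v ≠ x ∧ p ∈ R v := by
  obtain ⟨a, b, c, ha1, ha2, hb1, hb2, hc1, hc2⟩ := hr.str hfA
  have hab : a ≠ b := by
    rintro rfl
    exact hb2 ha2
  have hac : a ≠ c := by
    rintro rfl
    exact hc2 ha1
  rcases hp with rfl | rfl
  · by_cases hx : a = x
    · exact ⟨b, fun h => hab (hx.trans h.symm), hb1⟩
    · exact ⟨a, hx, ha1⟩
  · by_cases hx : a = x
    · exact ⟨c, fun h => hac (hx.trans h.symm), hc1⟩
    · exact ⟨a, hx, ha2⟩

/-- no triangles -/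
theorem Red.notri (hr : Red src dst S h s t A R) {p q r : W} (hpq : p ≠ q) (hqr : q ≠ r)
    (hrp : r ≠ p) {f1 f2 f3 : F} (h1 : f1 ∈ A) (h2 : f2 ∈ A) (h3 : f3 ∈ A)
    (j1 : Jn s t f1 p q) (j2 : Jn s t f2 q r) (j3 : Jn s t f3 r p) : False := by
  have hcol : ∀ {f : F} {a b : W}, f ∈ A → Jn s t f a b → ∃ u, a ∈ R u ∧ b ∈ R u := by
    intro f a b hf hj
    obtain ⟨u, hu1, hu2⟩ := hr.col hf
    rcases hj with ⟨e1, e2⟩ | ⟨e1, e2⟩
    · exact ⟨u, e1 ▸ hu1, e2 ▸ hu2⟩
    · exact ⟨u, e2 ▸ hu2, e1 ▸ hu1⟩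
  have huniq : ∀ {f : F} {a b : W} {u v : V}, f ∈ A → Jn s t f a b → a ∈ R u → b ∈ R u →
      a ∈ R v → b ∈ R v → u = v := by
    intro f a b u v hf hj ha hb ha' hb'
    rcases hj with ⟨e1, e2⟩ | ⟨e1, e2⟩
    · subst e1 e2
      exact hr.uniq hf ha hb ha' hb'
    · subst e1 e2
      exact hr.uniq hf hb ha hb' ha'
  obtain ⟨u, hpu, hqu⟩ := hcol h1 j1
  obtain ⟨v, hqv, hrv⟩ := hcol h2 j2
  obtain ⟨w, hrw, hpw⟩ := hcol h3 j3
  by_cases hru : r ∈ R u
  · -- all three points are in the same region: delete `f3`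
    refine hr.nodel h3 ?_
    intro x hx1 hx2 Y _ hc
    have hx : r ∈ R x ∧ p ∈ R x := by
      rcases j3 with ⟨e1, e2⟩ | ⟨e1, e2⟩
      · exact ⟨e1 ▸ hx1, e2 ▸ hx2⟩
      · exact ⟨e2 ▸ hx2, e1 ▸ hx1⟩
    have hxu : x = u := huniq h3 j3 hx.1 hx.2 hru hpu
    subst hxu
    have c1 : p ∈ Y ↔ q ∈ Y := by
      have hne : f1 ≠ f3 := by
        rintro rfl
        rcases j1 with ⟨e1, e2⟩ | ⟨e1, e2⟩ <;> rcases j3 with ⟨e3, e4⟩ | ⟨e3, e4⟩
        · exact hrp (e3.symm.trans e1)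
        · exact hqr (e2.symm.trans e4)
        · exact hqr (e1.symm.trans e3)
        · exact hpq (e3.symm.trans e1)
      rcases j1 with ⟨e1, e2⟩ | ⟨e1, e2⟩
      · have := hc f1 h1 hne (by rw [e1]; exact hpu) (by rw [e2]; exact hqu)
        rwa [e1, e2] at this
      · have := hc f1 h1 hne (by rw [e1]; exact hqu) (by rw [e2]; exact hpu)
        rw [e1, e2] at this
        exact this.symm
    have c2 : q ∈ Y ↔ r ∈ Y := by
      have hne : f2 ≠ f3 := by
        rintro rfl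
        rcases j2 with ⟨e1, e2⟩ | ⟨e1, e2⟩ <;> rcases j3 with ⟨e3, e4⟩ | ⟨e3, e4⟩
        · exact hqr (e1.symm.trans e3)
        · exact hpq (e3.symm.trans e1)
        · exact hpq (e4.symm.trans e2)
        · exact hrp (e1.symm.trans e3)
      rcases j2 with ⟨e1, e2⟩ | ⟨e1, e2⟩
      · have := hc f2 h2 hne (by rw [e1]; exact hqu) (by rw [e2]; exact hru)
        rwa [e1, e2] at this
      · have := hc f2 h2 hne (by rw [e1]; exact hru) (by rw [e2]; exact hqu)
        rw [e1, e2] at this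
        exact this.symm
    rcases j3 with ⟨e1, e2⟩ | ⟨e1, e2⟩
    · rw [e1, e2]
      tauto
    · rw [e1, e2]
      tauto
  · -- otherwise the three regions form a triangle
    have huv : u ≠ v := fun h => hru (h ▸ hrv)
    have huw : u ≠ w := fun h => hru (h ▸ hrw)
    have hvw : v ≠ w := by
      rintro rfl
      exact huv (huniq h1 j1 hpu hqu hpw hqv)
    exact hr.tri u v w (hr.adj' hqu hqv huv) (hr.adj' hrv hrw hvw) (hr.adj' hpw hpu huw.symm)

end

end Pool.Agent.Q165.SG
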